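import Pool.Agent.Helper16.OG.Stmts

set_option autoImplicit false

/-! Row A: ranks. -/

namespace Pool.Agent.Helper16.OG

open Finset Pool.Agent.Helper77.PMan

noncomputable section

open scoped Classical

universe u

section

variable {P : Type u} [PartialOrder P] [BoundedOrder P] [Fintype P] {rk : P → ℕ} {n : ℕ}

omit [PartialOrder P] [BoundedOrder P] in
theorem h8_mem_lv {x : P} {i : ℕ} : x ∈ lv rk i ↔ rk x = i := by
  unfold lv
  rw [mem_filter]
  exact ⟨fun h => h.2, fun h => ⟨mem_univ _, h⟩⟩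

omit [BoundedOrder P] in
theorem h8_mem_io {x z y : P} : y ∈ io x z ↔ x < y ∧ y < z := by
  unfold io
  rw [mem_filter]
  exact ⟨fun h => h.2, fun h => ⟨mem_univ _, h⟩⟩

theorem h8_bt (hT : Thin rk n) : (⊥ : P) < ⊤ := by
  rcases eq_or_lt_of_le (bot_le : (⊥ : P) ≤ ⊤) with h | h
  · exfalso
    have h1 := hT.bot
    have h2 := hT.top
    rw [← h, h1] at h2
    omega
  · exact h

theorem h8_even (hT : Thin rk n) (i : ℕ) : ∀ y ∈ lv rk i, ∀ H ∈ lv rk (i + 2),
    Even (((lv rk (i + 1)).filter (fun x => y < x ∧ x < H)).card) := by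
  intro y hy H hH
  rw [h8_mem_lv] at hy hH
  by_cases h : y < H
  · have h1 : (lv rk (i + 1)).filter (fun x => y < x ∧ x < H) = io y H := by
      ext x
      rw [mem_filter, h8_mem_lv, h8_mem_io]
      constructor
      · exact fun h => h.2
      · intro h
        have h2 := hT.mono y x h.1
        have h3 := hT.mono x H h.2
        exact ⟨by omega, h⟩
    rw [h1, hT.thin y H h (by omega)]
    exact even_two
  · have h1 : (lv rk (i + 1)).filter (fun x => y < x ∧ x < H) = ∅ := by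
      rw [filter_eq_empty_iff]
      intro x _ hx
      exact h (hx.1.trans hx.2)
    rw [h1, card_empty]
    exact Even.zero

end

theorem st_A (hEX : ST_EX.{u}) (hDR : ST_DR.{u}) : ST_A.{u} := by
  intro P _ _ _ n rk hT hn
  have h1 : ∀ i, i + 1 ≤ n → (lv rk i).card ≤ w rk i + w rk (i + 1) := by
    intro i _
    exact hEX P (fun x y : P => x < y) (lv rk i) (lv rk (i + 1)) (lv rk (i + 2)) (h8_even hT i)
  have hbot : lv rk 0 = {(⊥ : P)} := by
    ext x
    rw [h8_mem_lv, mem_singleton]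
    constructor
    · intro h
      by_contra hne
      have h2 := hT.mono ⊥ x (bot_lt_iff_ne_bot.2 hne)
      omega
    · rintro rfl
      exact hT.bot
  have hcard : (lv rk 0).card = 1 := by rw [hbot, card_singleton]
  refine ⟨h1, ?_, ?_⟩
  · have h2 : (lv rk 0).card ≤ w rk 0 + w rk 1 := h1 0 (by omega)
    obtain ⟨y, hy1, hy2, hy3⟩ := hT.mid ⊥ ⊤ (h8_bt hT) 1 (by rw [hT.bot]; omega)
      (by rw [hT.top]; omega)
    have h3 := hDR P (fun x y : P => x < y) (lv rk 1) (lv rk 0)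
      ⟨y, h8_mem_lv.2 hy3, ⊥, h8_mem_lv.2 hT.bot, hy1⟩
    have h4 : w rk 0 + 1 ≤ (lv rk 0).card := h3
    rw [hcard] at h2 h4
    omega
  · obtain ⟨y, hy1, hy2, hy3⟩ := hT.mid ⊥ ⊤ (h8_bt hT) n (by rw [hT.bot]; omega)
      (by rw [hT.top]; omega)
    exact hDR P (fun x y : P => x < y) (lv rk (n + 1)) (lv rk n)
      ⟨⊤, h8_mem_lv.2 hT.top, y, h8_mem_lv.2 hy3, hy2⟩

end

end Pool.Agent.Helper16.OG
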