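import Pool.Agent.Helper8.OG.A

set_option autoImplicit false

/-! Row D: gap at least three. -/

namespace Pool.Agent.Helper16.OG

open Finset Pool.Agent.Helper77.PMan

noncomputable section

open scoped Classical

universe u

section

variable {P : Type u} [PartialOrder P] [BoundedOrder P] [Fintype P] {rk : P → ℕ} {n : ℕ}

/-- the elements of level `i` below `e` -/
def h8A (rk : P → ℕ) (i : ℕ) (e : P) : Finset P := (lv rk i).filter (fun x => x < e)

/-- the elements of level `j` above `e` -/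
def h8B (rk : P → ℕ) (j : ℕ) (e : P) : Finset P := (lv rk j).filter (fun y => e < y)

theorem h8_lt_rk (hT : Thin rk n) (e : P) (h : 0 < rk e) : ⊥ < e := by
  rw [bot_lt_iff_ne_bot]
  rintro rfl
  rw [hT.bot] at h
  exact absurd h (lt_irrefl 0)

theorem h8_rk_lt (hT : Thin rk n) (e : P) (h : rk e < n + 1) : e < ⊤ := by
  rw [lt_top_iff_ne_top]
  rintro rfl
  rw [hT.top] at h
  exact absurd h (lt_irrefl _)

theorem h8_A2 (hT : Thin rk n) (i : ℕ) (hi : 1 ≤ i) (e : P) (he : i + 1 ≤ rk e) :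
    2 ≤ (h8A rk i e).card := by
  obtain ⟨e', he', hrk⟩ : ∃ e', e' ≤ e ∧ rk e' = i + 1 := by
    rcases eq_or_lt_of_le he with h | h
    · exact ⟨e, le_rfl, h.symm⟩
    · obtain ⟨y, -, hy2, hy3⟩ := hT.mid ⊥ e (h8_lt_rk hT e (by omega)) (i + 1)
        (by rw [hT.bot]; omega) h
      exact ⟨y, hy2.le, hy3⟩
  obtain ⟨z, hz, hrz⟩ : ∃ z, z < e' ∧ rk z = i - 1 := by
    rcases eq_or_lt_of_le hi with h | h
    · exact ⟨⊥, h8_lt_rk hT e' (by omega), by rw [hT.bot]; omega⟩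
    · obtain ⟨y, -, hy2, hy3⟩ := hT.mid ⊥ e' (h8_lt_rk hT e' (by omega)) (i - 1)
        (by rw [hT.bot]; omega) (by omega)
      exact ⟨y, hy2, hy3⟩
  have h1 := hT.thin z e' hz (by omega)
  rw [← h1]
  apply card_le_card
  intro x hx
  rw [h8_mem_io] at hx
  unfold h8A
  rw [mem_filter, h8_mem_lv]
  have h2 := hT.mono z x hx.1
  have h3 := hT.mono x e' hx.2
  exact ⟨by omega, lt_of_lt_of_le hx.2 he'⟩

theorem h8_B2 (hT : Thin rk n) (j : ℕ) (hj : j ≤ n) (e : P) (he : rk e + 1 ≤ j) :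
    2 ≤ (h8B rk j e).card := by
  obtain ⟨e', he', hrk⟩ : ∃ e', e ≤ e' ∧ rk e' + 1 = j := by
    rcases eq_or_lt_of_le he with h | h
    · exact ⟨e, le_rfl, h⟩
    · obtain ⟨y, hy1, -, hy3⟩ := hT.mid e ⊤ (h8_rk_lt hT e (by omega)) (j - 1)
        (by omega) (by rw [hT.top]; omega)
      exact ⟨y, hy1.le, by omega⟩
  obtain ⟨z, hz, hrz⟩ : ∃ z, e' < z ∧ rk z = j + 1 := by
    rcases eq_or_lt_of_le hj with h | h
    · exact ⟨⊤, h8_rk_lt hT e' (by omega), by rw [hT.top, h]⟩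
    · obtain ⟨y, hy1, -, hy3⟩ := hT.mid e' ⊤ (h8_rk_lt hT e' (by omega)) (j + 1)
        (by omega) (by rw [hT.top]; omega)
      exact ⟨y, hy1, hy3⟩
  have h1 := hT.thin e' z hz (by omega)
  rw [← h1]
  apply card_le_card
  intro x hx
  rw [h8_mem_io] at hx
  unfold h8B
  rw [mem_filter, h8_mem_lv]
  have h2 := hT.mono e' x hx.1
  have h3 := hT.mono x z hx.2
  exact ⟨by omega, lt_of_le_of_lt he' hx.1⟩

omit [BoundedOrder P] in
theorem h8_A_mono (i : ℕ) {k l : P} (h : k < l) : h8A rk i k ∩ h8A rk i l = h8A rk i k := by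
  rw [inter_eq_left]
  intro x hx
  unfold h8A at hx ⊢
  rw [mem_filter] at hx ⊢
  exact ⟨hx.1, hx.2.trans h⟩

omit [BoundedOrder P] in
theorem h8_B_mono (j : ℕ) {k l : P} (h : k < l) : h8B rk j k ∩ h8B rk j l = h8B rk j l := by
  rw [inter_eq_right]
  intro x hx
  unfold h8B at hx ⊢
  rw [mem_filter] at hx ⊢
  exact ⟨hx.1, h.trans hx.2⟩

end

theorem st_D (hBIP : ST_BIP.{u}) : ST_D.{u} := by
  intro P _ _ _ n rk hT i j hi hij hj
  have hK : ∀ k ∈ lv rk (i + 1) ∪ lv rk (j - 1), rk k = i + 1 ∨ rk k = j - 1 := by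
    intro k hk
    rw [mem_union, h8_mem_lv, h8_mem_lv] at hk
    exact hk
  have hne : (lv rk (i + 1) ∪ lv rk (j - 1)).Nonempty := by
    obtain ⟨y, -, -, hy3⟩ := hT.mid ⊥ ⊤ (h8_bt hT) (i + 1) (by rw [hT.bot]; omega)
      (by rw [hT.top]; omega)
    exact ⟨y, mem_union_left _ (h8_mem_lv.2 hy3)⟩
  have h2 : ∀ k ∈ lv rk (i + 1) ∪ lv rk (j - 1), 2 ≤ (h8A rk i k).card ∧
      2 ≤ (h8B rk j k).card := by
    intro k hk
    rcases hK k hk with h | h
    · exact ⟨h8_A2 hT i hi k (by omega), h8_B2 hT j hj k (by omega)⟩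
    · exact ⟨h8_A2 hT i hi k (by omega), h8_B2 hT j hj k (by omega)⟩
  have hmain := hBIP P (lv rk (i + 1) ∪ lv rk (j - 1)) (h8A rk i) (h8B rk j) hne h2 (by
    intro S hS hSne hSK
    by_contra hcon
    push Not at hcon
    apply hSK
    apply Subset.antisymm hS
    have hcl : ∀ y ∈ S, ∀ y' ∈ io (⊥ : P) ⊤, (rk y' = i + 1 ∨ rk y' = j - 1) →
        (y < y' ∨ y' < y) → y' ∈ S := by
      intro y hy y' _ hr hcomp
      by_contra hn
      have hy'K : y' ∈ lv rk (i + 1) ∪ lv rk (j - 1) := by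
        rw [mem_union, h8_mem_lv, h8_mem_lv]
        exact hr
      have hyK := hS hy
      rcases hcomp with h | h
      · have h3 : 2 ≤ (h8A rk i y ∩ h8A rk i y').card := by
          rw [h8_A_mono i h]
          exact (h2 y hyK).1
        have h4 := hcon y hy y' hy'K hn h3
        rw [h8_B_mono j h] at h4
        exact absurd (h2 y' hy'K).2 (not_le.2 h4)
      · have h3 : 2 ≤ (h8A rk i y ∩ h8A rk i y').card := by
          rw [inter_comm, h8_A_mono i h]
          exact (h2 y' hy'K).1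
        have h4 := hcon y hy y' hy'K hn h3
        rw [inter_comm, h8_B_mono j h] at h4
        exact absurd (h2 y hyK).2 (not_le.2 h4)
    have hio : ∀ y : P, (rk y = i + 1 ∨ rk y = j - 1) → y ∈ io (⊥ : P) ⊤ := by
      intro y hy
      rw [h8_mem_io]
      exact ⟨h8_lt_rk hT y (by omega), h8_rk_lt hT y (by omega)⟩
    have h5 := hT.conn ⊥ ⊤ (h8_bt hT) (i + 1) (j - 1) (by rw [hT.bot]; omega) (by omega)
      (by rw [hT.top]; omega) S hSne (fun y hy => ⟨hio y (hK y (hS hy)), hK y (hS hy)⟩) hcl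
    intro y hy
    exact h5 y (hio y (hK y hy)) (hK y hy))
  have hA : (lv rk i).card ≤ ((lv rk (i + 1) ∪ lv rk (j - 1)).biUnion (h8A rk i)).card := by
    apply card_le_card
    intro x hx
    rw [h8_mem_lv] at hx
    obtain ⟨e, he1, -, he3⟩ := hT.mid x ⊤ (h8_rk_lt hT x (by omega)) (i + 1) (by omega)
      (by rw [hT.top]; omega)
    rw [mem_biUnion]
    refine ⟨e, mem_union_left _ (h8_mem_lv.2 he3), ?_⟩
    unfold h8A
    rw [mem_filter, h8_mem_lv]
    exact ⟨hx, he1⟩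
  have hB : (lv rk j).card ≤ ((lv rk (i + 1) ∪ lv rk (j - 1)).biUnion (h8B rk j)).card := by
    apply card_le_card
    intro y hy
    rw [h8_mem_lv] at hy
    obtain ⟨e, -, he2, he3⟩ := hT.mid ⊥ y (h8_lt_rk hT y (by omega)) (j - 1)
      (by rw [hT.bot]; omega) (by omega)
    rw [mem_biUnion]
    refine ⟨e, mem_union_right _ (h8_mem_lv.2 he3), ?_⟩
    unfold h8B
    rw [mem_filter, h8_mem_lv]
    exact ⟨hy, he2⟩
  have hE : ((lv rk (i + 1) ∪ lv rk (j - 1)).biUnion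
      (fun k => h8A rk i k ×ˢ h8B rk j k)).card ≤ E rk i j := by
    unfold E
    apply card_le_card
    intro p hp
    rw [mem_biUnion] at hp
    obtain ⟨k, -, hk⟩ := hp
    rw [mem_product] at hk
    unfold h8A h8B at hk
    rw [mem_filter, mem_filter] at hk
    rw [mem_filter, mem_product]
    exact ⟨⟨hk.1.1, hk.2.1⟩, hk.1.2.trans hk.2.2⟩
  omega

end

end Pool.Agent.Helper16.OG
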